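import Mathlib

namespace Pool.Agent.H.MP_590da2_gt

abbrev V := Fin 4 → ℝ

/-- The four-dimensional solvable bracket. -/
def b4 : V →ₗ[ℝ] V →ₗ[ℝ] V := LinearMap.mk₂ ℝ (fun a b =>
  ![0, 2 * (a 0 * b 1 - a 1 * b 0) + (a 3 * b 2 - a 2 * b 3), a 0 * b 2 - a 2 * b 0,
    a 0 * b 3 - a 3 * b 0])
  (fun a b c => by ext j; fin_cases j <;> simp <;> ring)
  (fun a b c => by ext j; fin_cases j <;> simp <;> ring)
  (fun a b c => by ext j; fin_cases j <;> simp <;> ring)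
  (fun a b c => by ext j; fin_cases j <;> simp <;> ring)

lemma b4_ap (a b : V) : b4 a b =
  ![0, 2 * (a 0 * b 1 - a 1 * b 0) + (a 3 * b 2 - a 2 * b 3), a 0 * b 2 - a 2 * b 0,
    a 0 * b 3 - a 3 * b 0] := rfl

lemma b4_self (a : V) : b4 a a = 0 := by
  ext j; fin_cases j <;> simp [b4_ap] <;> ring

lemma b4_anti (a b : V) : b4 a b = -b4 b a := by
  ext j; fin_cases j <;> simp [b4_ap] <;> ring

lemma b4_jac (a b c : V) : b4 (b4 a b) c = b4 a (b4 b c) - b4 b (b4 a c) := by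
  ext j; fin_cases j <;> simp [b4_ap] <;> ring

def j1 : V →ₗ[ℝ] V where
  toFun a := ![-a 1, a 0, -a 3, a 2]
  map_add' a b := by ext j; fin_cases j <;> simp <;> ring
  map_smul' c a := by ext j; fin_cases j <;> simp

def j2 : V →ₗ[ℝ] V where
  toFun a := ![-a 2, a 3, a 0, -a 1]
  map_add' a b := by ext j; fin_cases j <;> simp <;> ring
  map_smul' c a := by ext j; fin_cases j <;> simp

def j3 : V →ₗ[ℝ] V where
  toFun a := ![-a 3, -a 2, a 1, a 0]
  map_add' a b := by ext j; fin_cases j <;> simp <;> ring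
  map_smul' c a := by ext j; fin_cases j <;> simp

lemma j1_ap (a : V) : j1 a = ![-a 1, a 0, -a 3, a 2] := rfl
lemma j2_ap (a : V) : j2 a = ![-a 2, a 3, a 0, -a 1] := rfl
lemma j3_ap (a : V) : j3 a = ![-a 3, -a 2, a 1, a 0] := rfl

lemma nij1 (a b : V) : b4 (j1 a) (j1 b) = b4 a b + j1 (b4 (j1 a) b) + j1 (b4 a (j1 b)) := by
  ext j; fin_cases j <;> simp [b4_ap, j1_ap] <;> ring
lemma nij2 (a b : V) : b4 (j2 a) (j2 b) = b4 a b + j2 (b4 (j2 a) b) + j2 (b4 a (j2 b)) := by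
  ext j; fin_cases j <;> simp [b4_ap, j2_ap] <;> ring
lemma nij3 (a b : V) : b4 (j3 a) (j3 b) = b4 a b + j3 (b4 (j3 a) b) + j3 (b4 a (j3 b)) := by
  ext j; fin_cases j <;> simp [b4_ap, j3_ap] <;> ring

/-- The four-dimensional connection. -/
noncomputable def n4 (a b : V) : V :=
  ![(3 * a 0 * b 0 + a 1 * b 1 - a 2 * b 2 - a 3 * b 3) / 2,
    (3 * a 0 * b 1 - a 1 * b 0 - a 2 * b 3 + a 3 * b 2) / 2,
    (3 * a 0 * b 2 - a 1 * b 3 + a 2 * b 0 - a 3 * b 1) / 2,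
    (3 * a 0 * b 3 + a 1 * b 2 + a 2 * b 1 + a 3 * b 0) / 2]

lemma n4_eq (a b : V) : n4 a b = (1 / 2 : ℝ) •
    (b4 a b + j1 (b4 (j1 a) b) - j2 (b4 a (j2 b)) + j3 (b4 (j1 a) (j2 b))) := by
  ext j; fin_cases j <;> simp [b4_ap, j1_ap, j2_ap, j3_ap, n4] <;> ring

/-- Truncated current algebra; index `i` is the coefficient of `t ^ (i + 1)`. -/
def L : Type := Fin 5 → V

instance : AddCommGroup L := inferInstanceAs (AddCommGroup (Fin 5 → V))
instance : Module ℝ L := inferInstanceAs (Module ℝ (Fin 5 → V))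
instance : Module.Finite ℝ L := inferInstanceAs (Module.Finite ℝ (Fin 5 → V))

def conv (f : V → V → V) (a b : L) : L :=
  ![0, f (a 0) (b 0), f (a 0) (b 1) + f (a 1) (b 0),
    f (a 0) (b 2) + f (a 1) (b 1) + f (a 2) (b 0),
    f (a 0) (b 3) + f (a 1) (b 2) + f (a 2) (b 1) + f (a 3) (b 0)]

lemma c0 (f : V → V → V) (a b : L) : conv f a b 0 = 0 := rfl
lemma c1 (f : V → V → V) (a b : L) : conv f a b 1 = f (a 0) (b 0) := rfl
lemma c2 (f : V → V → V) (a b : L) : conv f a b 2 = f (a 0) (b 1) + f (a 1) (b 0) := rfl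
lemma c3 (f : V → V → V) (a b : L) :
    conv f a b 3 = f (a 0) (b 2) + f (a 1) (b 1) + f (a 2) (b 0) := rfl
lemma c4 (f : V → V → V) (a b : L) :
    conv f a b 4 = f (a 0) (b 3) + f (a 1) (b 2) + f (a 2) (b 1) + f (a 3) (b 0) := rfl

lemma L.ext5 {a b : L} (h0 : a 0 = b 0) (h1 : a 1 = b 1) (h2 : a 2 = b 2) (h3 : a 3 = b 3)
    (h4 : a 4 = b 4) : a = b := by
  funext i
  fin_cases i
  exacts [h0, h1, h2, h3, h4]

lemma add_ap (a b : L) (i) : (a + b) i = a i + b i := rfl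
lemma sub_ap (a b : L) (i) : (a - b) i = a i - b i := rfl
lemma neg_ap (a : L) (i) : (-a) i = -a i := rfl
lemma zero_ap (i) : (0 : L) i = 0 := rfl
lemma smul_ap (c : ℝ) (a : L) (i) : (c • a) i = c • a i := rfl

instance : LieRing L where
  bracket := conv (fun a b => b4 a b)
  add_lie a b c := by
    apply L.ext5 <;> simp only [c0, c1, c2, c3, c4, add_ap, map_add, LinearMap.add_apply] <;> abel
  lie_add a b c := by
    apply L.ext5 <;> simp only [c0, c1, c2, c3, c4, add_ap, map_add] <;> abel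
  lie_self a := by
    apply L.ext5 <;> simp only [c0, c1, c2, c3, c4, zero_ap, b4_self, b4_anti (a 1) (a 0),
      b4_anti (a 2) (a 0), b4_anti (a 3) (a 0), b4_anti (a 2) (a 1)] <;> abel
  leibniz_lie a b c := by
    apply L.ext5 <;> simp only [c0, c1, c2, c3, c4, add_ap, map_add, LinearMap.add_apply, map_zero,
      LinearMap.zero_apply, b4_jac] <;> abel

lemma lie_eq (a b : L) : ⁅a, b⁆ = conv (fun a b => b4 a b) a b := rfl

instance : LieAlgebra ℝ L where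
  lie_smul c a b := by
    apply L.ext5 <;> simp only [lie_eq, c0, c1, c2, c3, c4, smul_ap, map_smul, smul_add, smul_zero]

instance : LieRing.IsNilpotent L := by
  rw [LieAlgebra.isNilpotent_iff_forall (R := ℝ)]
  intro a
  refine ⟨5, LinearMap.ext fun b => ?_⟩
  simp only [pow_succ, pow_zero, one_mul, Module.End.mul_apply, LieAlgebra.ad_apply, lie_eq]
  apply L.ext5 <;> simp only [c0, c1, c2, c3, c4, map_zero, add_zero, LinearMap.zero_apply, zero_ap]

/-- Coefficientwise extension of an endomorphism. -/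
def up (j : V →ₗ[ℝ] V) : Module.End ℝ L where
  toFun a := fun i => j (a i)
  map_add' a b := funext fun i => j.map_add (a i) (b i)
  map_smul' c a := funext fun i => j.map_smul c (a i)

lemma up_ap (j : V →ₗ[ℝ] V) (a : L) (i) : up j a i = j (a i) := rfl

lemma nij (j : V →ₗ[ℝ] V) (h : ∀ a b, b4 (j a) (j b) = b4 a b + j (b4 (j a) b) + j (b4 a (j b)))
    (X Y : L) : ⁅X, Y⁆ + up j (⁅up j X, Y⁆ + ⁅X, up j Y⁆) - ⁅up j X, up j Y⁆ = 0 := by
  apply L.ext5 <;> simp only [lie_eq, c0, c1, c2, c3, c4, add_ap, sub_ap, up_ap, map_add, map_zero,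
    zero_ap, h] <;> abel

lemma nb_eq (a b : L) : (1 / 2 : ℝ) • (⁅a, b⁆ + up j1 ⁅up j1 a, b⁆ - up j2 ⁅a, up j2 b⁆ +
    up j3 ⁅up j1 a, up j2 b⁆) = conv n4 a b := by
  apply L.ext5 <;> simp only [lie_eq, c0, c1, c2, c3, c4, add_ap, sub_ap, smul_ap, up_ap, map_add,
    map_zero, n4_eq] <;> module

lemma up_mul (p q r : V →ₗ[ℝ] V) (h : ∀ a, p (q a) = r a) : up p * up q = up r :=
  LinearMap.ext fun a => funext fun i => h (a i)

lemma up_mul' (p q r : V →ₗ[ℝ] V) (h : ∀ a, p (q a) = -r a) : up p * up q = -up r :=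
  LinearMap.ext fun a => funext fun i => h (a i)

lemma up_sq (p : V →ₗ[ℝ] V) (h : ∀ a, p (p a) = -a) : up p * up p = -1 :=
  LinearMap.ext fun a => funext fun i => h (a i)

/-- Vectors of pure degree. -/
def e (k : Fin 5) (v : V) : L := Pi.single k v

lemma conv_e (f : V → V → V) (h1 : ∀ a, f a 0 = 0) (h2 : ∀ a, f 0 a = 0) (u v : V) :
    conv f (e 0 u) (e 0 v) = e 1 (f u v) ∧ conv f (e 0 u) (e 1 v) = e 2 (f u v) ∧
    conv f (e 1 u) (e 0 v) = e 2 (f u v) ∧ conv f (e 0 u) (e 2 v) = e 3 (f u v) ∧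
    conv f (e 0 u) (e 3 v) = e 4 (f u v) ∧ conv f (e 1 u) (e 2 v) = e 4 (f u v) := by
  refine ⟨?_, ?_, ?_, ?_, ?_, ?_⟩ <;> apply L.ext5 <;> simp [c0, c1, c2, c3, c4, e, h1, h2]

lemma e_sub (k : Fin 5) (u v : V) : e k u - e k v = e k (u - v) :=
  (Pi.single_sub (f := fun _ : Fin 5 => V) k u v).symm

end Pool.Agent.H.MP_590da2_gt
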